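import Pool.Agent.R959.LD3.Final3
import Pool.Agent.J4.H92.BF.Frac
import Pool.Agent.J4.H92.BF.Transfer

/-!
# Beck–Fiala: rounding of arbitrary points, with laminar cardinality constraints

Let `S_1, …, S_m` be subsets of `[n]`, let `x⁰ ∈ [0,1]^n` be arbitrary and let `L` be a laminar
family of subsets of `[n]` (any two members are disjoint or nested; the degrees of `L` are not
bounded). We look for a rounding `x ∈ {0,1}^n` of `x⁰` for which `|x(T) - x⁰(T)| < 1` for every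
`T ∈ L` and all errors `|x(S_j) - x⁰(S_j)|` are small.

(1) Let `0 < κ < 1/9`. If every element `i` with `0 < x⁰_i < 1` is in at most `t` of the sets, then
there is such a rounding with
`|x(S_j) - x⁰(S_j)| ≤ C (√t + σ_j + f_j exp (-t ^ κ))` for all `j`. Here
`σ_j² = ∑_{i ∈ S_j} x⁰_i (1 - x⁰_i)` is the variance of `x(S_j)` for independent randomized
rounding, `f_j` is the number of fractional coordinates of `x⁰` in `S_j`, and `C` depends on `κ`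
only. So, for sets with at most `exp (t ^ κ)` fractional elements, the error is at most that of
randomized rounding plus `C √t`, for all sets simultaneously, for any number of sets and points.

(2) The same for real matrices with entries of absolute value at most one, columns of `ℓ¹` norm at
most `t` and rows and columns with at most `k` nonzero entries: all the errors are at most
`C √(t + ∑_j |A_ij| x⁰_j (1 - x⁰_j) + (log k)^(1/κ))`.

(3) If the degrees are at most `t` then there is such a rounding with all errors at most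
`C (√t + (1 + log t)^{3/2} √(log (1 + min m n)))`, `C` absolute.

(4) The Beck–Fiala conjecture holds if and only if there is always such a rounding with all errors
at most `C √t`.

For `x⁰ = (1/2, …, 1/2)` and `L` the family of the initial segments, (1) is the theorem of the file
`LongSets`.
-/

set_option autoImplicit false

open Finset

namespace Pool.Agent.Results.MP_e8ee11_co.LaminarRounding

/-- Every element is in at most `t` of the sets `S_1, …, S_m`. -/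
def DegreeLE {m n : ℕ} (S : Fin m → Finset (Fin n)) (t : ℕ) : Prop :=
  ∀ i, (univ.filter (fun j => i ∈ S j)).card ≤ t

/-- `L` is a laminar family: any two members are disjoint, or one of them contains the other. -/
def Laminar {n : ℕ} (L : Set (Finset (Fin n))) : Prop :=
  ∀ S ∈ L, ∀ T ∈ L, S ⊆ T ∨ T ⊆ S ∨ Disjoint S T

/-- `x` is a `0`-`1` rounding of `x₀` which keeps the integral coordinates and for which
`|x(T) - x₀(T)| < 1` for all `T ∈ L`. -/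
def IsRounding {n : ℕ} (L : Set (Finset (Fin n))) (x₀ x : Fin n → ℝ) : Prop :=
  (∀ i, x i = 0 ∨ x i = 1) ∧ (∀ i, x₀ i = 0 ∨ x₀ i = 1 → x i = x₀ i) ∧
    ∀ T ∈ L, |∑ i ∈ T, (x i - x₀ i)| < 1

theorem keep {a : ℤ} {b : ℝ} (ha : a = 0 ∨ a = 1) (hb : b = 0 ∨ b = 1)
    (h : |(a : ℝ) - b| < 1) : (a : ℝ) = b := by
  rcases hb with rfl | rfl <;> rcases ha with rfl | rfl
  · simp
  · norm_num at h
  · norm_num at h
  · simp

theorem part1 (κ : ℝ) (hκ : 0 < κ) (hκ' : κ < 1 / 9) :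
    ∃ C : ℝ, 0 < C ∧ ∀ (n m t : ℕ) (S : Fin m → Finset (Fin n)) (L : Set (Finset (Fin n)))
      (x₀ : Fin n → ℝ), 1 ≤ t →
      (∀ i, 0 < x₀ i → x₀ i < 1 → (univ.filter (fun j => i ∈ S j)).card ≤ t) →
      Laminar L → (∀ i, 0 ≤ x₀ i ∧ x₀ i ≤ 1) →
      ∃ x : Fin n → ℝ, IsRounding L x₀ x ∧
        ∀ j, |∑ i ∈ S j, (x i - x₀ i)| ≤
          C * (Real.sqrt t + Real.sqrt (∑ i ∈ S j, x₀ i * (1 - x₀ i)) +
            {i | i ∈ S j ∧ 0 < x₀ i ∧ x₀ i < 1}.ncard * Real.exp (-((t : ℝ) ^ κ))) := by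
  classical
  obtain ⟨C, hC, hc⟩ := Pool.Agent.J4.H92.BF.round_frac κ hκ
    (Pool.Agent.R959.LD3.main3 1 κ zero_le_one hκ (by linarith))
  refine ⟨C, hC, fun n m t S L x₀ ht hdeg hL hx => ?_⟩
  obtain ⟨x, h1, h2, h3, h4, h5⟩ := hc n m t S L x₀ ht (fun i hi hi' => by
    have := hdeg i hi hi'
    convert this) hL hx
  refine ⟨fun i => (x i : ℝ), ⟨fun i => ?_, fun i hi => ?_, h4⟩, fun j => ?_⟩
  · show (x i : ℝ) = 0 ∨ (x i : ℝ) = 1
    rcases h1 i with h | h <;> rw [h] <;> simp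
  · show (x i : ℝ) = x₀ i
    rcases hi with hi | hi
    · rw [hi, h2 i hi]; simp
    · rw [hi, h3 i hi]; simp
  · have e : {i | i ∈ S j ∧ 0 < x₀ i ∧ x₀ i < 1}.ncard =
        ((S j).filter (fun i => 0 < x₀ i ∧ x₀ i < 1)).card := by
      rw [← Set.ncard_coe_finset]
      congr 1
      ext i
      simp
    rw [e]
    have := h5 j
    convert this

theorem part2 (κ : ℝ) (hκ : 0 < κ) (hκ' : κ < 1 / 9) :
    ∃ C : ℝ, 0 < C ∧ ∀ (n m k : ℕ) (t : ℝ) (A : Fin m → Fin n → ℝ) (L : Set (Finset (Fin n)))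
      (x₀ : Fin n → ℝ), 1 ≤ t → (∀ i j, |A i j| ≤ 1) → (∀ j, ∑ i, |A i j| ≤ t) →
      (∀ i, {j | A i j ≠ 0}.ncard ≤ k) → (∀ j, {i | A i j ≠ 0}.ncard ≤ k) →
      Laminar L → (∀ i, 0 ≤ x₀ i ∧ x₀ i ≤ 1) →
      ∃ x : Fin n → ℝ, IsRounding L x₀ x ∧
        ∀ i, |∑ j, A i j * (x j - x₀ j)| ≤
          C * Real.sqrt (t + ∑ j, |A i j| * (x₀ j * (1 - x₀ j)) + (Real.log k) ^ (1 / κ)) := by
  classical
  obtain ⟨C, hC, hc⟩ := Pool.Agent.J4.H92.BF.round_matrix κ hκ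
    (Pool.Agent.R959.LD3.main3 1 κ zero_le_one hκ (by linarith))
  refine ⟨C, hC, fun n m k t A L x₀ ht h1 h2 h3 h4 hL hx => ?_⟩
  obtain ⟨x, g1, g2, g3⟩ := hc n (Fin m) k t A (L ∪ {T | ∃ i, T = {i}}) x₀
    (Pool.Agent.J4.H92.BF.laminar_insert_singletons hL) ht h1 h2
    (fun i => by rw [Pool.Agent.R959.LD3.supp_card]; exact h3 i)
    (fun j => by rw [Pool.Agent.R959.LD3.supp_card]; exact h4 j) hx
  have hsing : ∀ i, |(x i : ℝ) - x₀ i| < 1 := by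
    intro i
    have := g2 {i} (Or.inr ⟨i, rfl⟩)
    simpa using this
  refine ⟨fun i => (x i : ℝ), ⟨fun i => ?_, fun i hi => ?_, fun T hT => g2 T (Or.inl hT)⟩, g3⟩
  · show (x i : ℝ) = 0 ∨ (x i : ℝ) = 1
    rcases g1 i with h | h <;> rw [h] <;> simp
  · exact keep (g1 i) hi (hsing i)

theorem part3 : ∃ C : ℝ, ∀ (n m t : ℕ) (S : Fin m → Finset (Fin n)) (L : Set (Finset (Fin n)))
    (x₀ : Fin n → ℝ), 1 ≤ t → DegreeLE S t → Laminar L → (∀ i, 0 ≤ x₀ i ∧ x₀ i ≤ 1) →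
    ∃ x : Fin n → ℝ, IsRounding L x₀ x ∧ ∀ j, |∑ i ∈ S j, (x i - x₀ i)| ≤
      C * (Real.sqrt t + (1 + Real.log t) ^ (3 / 2 : ℝ) *
        Real.sqrt (Real.log (1 + (min m n : ℕ)))) := by
  classical
  obtain ⟨C, hc⟩ := Pool.Agent.J4.H92.BF.log_bound
  refine ⟨C, fun n m t S L x₀ ht hdeg hL hx => ?_⟩
  obtain ⟨x, g1, g2, g3⟩ := hc n m t S (L ∪ {T | ∃ i, T = {i}}) x₀ ht hdeg
    (Pool.Agent.J4.H92.BF.laminar_insert_singletons hL) hx
  have hsing : ∀ i, |(x i : ℝ) - x₀ i| < 1 := by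
    intro i
    have := g2 {i} (Or.inr ⟨i, rfl⟩)
    simpa using this
  refine ⟨fun i => (x i : ℝ), ⟨fun i => ?_, fun i hi => ?_, fun T hT => g2 T (Or.inl hT)⟩, g3⟩
  · show (x i : ℝ) = 0 ∨ (x i : ℝ) = 1
    rcases g1 i with h | h <;> rw [h] <;> simp
  · exact keep (g1 i) hi (hsing i)

theorem part4 :
    (∃ C : ℝ, 0 < C ∧ ∀ (n m t : ℕ) (S : Fin m → Finset (Fin n)), DegreeLE S t →
      ∃ χ : Fin n → ℤ, (∀ i, χ i = 1 ∨ χ i = -1) ∧
        ∀ j, ((|∑ i ∈ S j, χ i| : ℤ) : ℝ) ≤ C * Real.sqrt t) ↔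
    ∃ C : ℝ, 0 < C ∧ ∀ (n m t : ℕ) (S : Fin m → Finset (Fin n)) (L : Set (Finset (Fin n)))
      (x₀ : Fin n → ℝ), DegreeLE S t → Laminar L → (∀ i, 0 ≤ x₀ i ∧ x₀ i ≤ 1) →
      ∃ x : Fin n → ℝ, IsRounding L x₀ x ∧
        ∀ j, |∑ i ∈ S j, (x i - x₀ i)| ≤ C * Real.sqrt t := by
  classical
  constructor
  · rintro ⟨c, hc, h⟩
    refine ⟨4 * c, by positivity, fun n m t S L x₀ hdeg hL hx => ?_⟩
    obtain ⟨x, g1, g2, g3⟩ := Pool.Agent.J4.H92.BF.transfer n m t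
      (c * (2 * Real.sqrt t)) (by
      intro k _ S' hS'
      obtain ⟨χ, hχ, hχ2⟩ := h k (m + m) (2 * t) S' hS'
      refine ⟨χ, hχ, fun j => ?_⟩
      have h1 := hχ2 j
      push_cast at h1
      refine h1.trans (mul_le_mul_of_nonneg_left ?_ hc.le)
      rw [Real.sqrt_mul (by norm_num)]
      have : Real.sqrt 2 ≤ 2 := by
        rw [Real.sqrt_le_iff]; norm_num
      exact mul_le_mul_of_nonneg_right this (Real.sqrt_nonneg _))
      S (L ∪ {T | ∃ i, T = {i}}) x₀ hdeg (Pool.Agent.J4.H92.BF.laminar_insert_singletons hL) hx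
    have hsing : ∀ i, |(x i : ℝ) - x₀ i| < 1 := by
      intro i
      have := g2 {i} (Or.inr ⟨i, rfl⟩)
      simpa using this
    refine ⟨fun i => (x i : ℝ), ⟨fun i => ?_, fun i hi => ?_, fun T hT => g2 T (Or.inl hT)⟩,
      fun j => (g3 j).trans (le_of_eq (by ring))⟩
    · show (x i : ℝ) = 0 ∨ (x i : ℝ) = 1
      rcases g1 i with h | h <;> rw [h] <;> simp
    · exact keep (g1 i) hi (hsing i)
  · rintro ⟨c, hc, h⟩
    refine ⟨2 * c, by positivity, fun n m t S hdeg => ?_⟩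
    obtain ⟨x, ⟨hx1, _, _⟩, hx3⟩ := h n m t S ∅ (fun _ => 1 / 2) hdeg
      (fun S hS => absurd hS (Set.notMem_empty S)) (fun _ => by norm_num)
    have key : ∀ i, ∃ e : ℤ, (e = 1 ∨ e = -1) ∧ (e : ℝ) = 2 * x i - 1 := by
      intro i
      rcases hx1 i with h | h
      · exact ⟨-1, Or.inr rfl, by rw [h]; norm_num⟩
      · exact ⟨1, Or.inl rfl, by rw [h]; norm_num⟩
    choose χ hχ1 hχ2 using key
    refine ⟨χ, hχ1, fun j => ?_⟩
    push_cast
    have e : ∑ i ∈ S j, (χ i : ℝ) = 2 * ∑ i ∈ S j, (x i - 1 / 2) := by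
      rw [Finset.mul_sum]
      refine Finset.sum_congr rfl fun i _ => ?_
      rw [hχ2]; ring
    rw [e, abs_mul, abs_two]
    have := hx3 j
    linarith

/-- **Roundings with laminar constraints**: see the header of the file. -/
theorem result :
    (∀ κ : ℝ, 0 < κ → κ < 1 / 9 →
      ∃ C : ℝ, 0 < C ∧ ∀ (n m t : ℕ) (S : Fin m → Finset (Fin n)) (L : Set (Finset (Fin n)))
        (x₀ : Fin n → ℝ), 1 ≤ t →
        (∀ i, 0 < x₀ i → x₀ i < 1 → (univ.filter (fun j => i ∈ S j)).card ≤ t) →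
        Laminar L → (∀ i, 0 ≤ x₀ i ∧ x₀ i ≤ 1) →
        ∃ x : Fin n → ℝ, IsRounding L x₀ x ∧
          ∀ j, |∑ i ∈ S j, (x i - x₀ i)| ≤
            C * (Real.sqrt t + Real.sqrt (∑ i ∈ S j, x₀ i * (1 - x₀ i)) +
              {i | i ∈ S j ∧ 0 < x₀ i ∧ x₀ i < 1}.ncard * Real.exp (-((t : ℝ) ^ κ)))) ∧
    (∀ κ : ℝ, 0 < κ → κ < 1 / 9 →
      ∃ C : ℝ, 0 < C ∧ ∀ (n m k : ℕ) (t : ℝ) (A : Fin m → Fin n → ℝ) (L : Set (Finset (Fin n)))
        (x₀ : Fin n → ℝ), 1 ≤ t → (∀ i j, |A i j| ≤ 1) → (∀ j, ∑ i, |A i j| ≤ t) →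
        (∀ i, {j | A i j ≠ 0}.ncard ≤ k) → (∀ j, {i | A i j ≠ 0}.ncard ≤ k) →
        Laminar L → (∀ i, 0 ≤ x₀ i ∧ x₀ i ≤ 1) →
        ∃ x : Fin n → ℝ, IsRounding L x₀ x ∧
          ∀ i, |∑ j, A i j * (x j - x₀ j)| ≤
            C * Real.sqrt (t + ∑ j, |A i j| * (x₀ j * (1 - x₀ j)) + (Real.log k) ^ (1 / κ))) ∧
    (∃ C : ℝ, ∀ (n m t : ℕ) (S : Fin m → Finset (Fin n)) (L : Set (Finset (Fin n)))
      (x₀ : Fin n → ℝ), 1 ≤ t → DegreeLE S t → Laminar L → (∀ i, 0 ≤ x₀ i ∧ x₀ i ≤ 1) →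
      ∃ x : Fin n → ℝ, IsRounding L x₀ x ∧ ∀ j, |∑ i ∈ S j, (x i - x₀ i)| ≤
        C * (Real.sqrt t + (1 + Real.log t) ^ (3 / 2 : ℝ) *
          Real.sqrt (Real.log (1 + (min m n : ℕ))))) ∧
    ((∃ C : ℝ, 0 < C ∧ ∀ (n m t : ℕ) (S : Fin m → Finset (Fin n)), DegreeLE S t →
        ∃ χ : Fin n → ℤ, (∀ i, χ i = 1 ∨ χ i = -1) ∧
          ∀ j, ((|∑ i ∈ S j, χ i| : ℤ) : ℝ) ≤ C * Real.sqrt t) ↔
      ∃ C : ℝ, 0 < C ∧ ∀ (n m t : ℕ) (S : Fin m → Finset (Fin n)) (L : Set (Finset (Fin n)))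
        (x₀ : Fin n → ℝ), DegreeLE S t → Laminar L → (∀ i, 0 ≤ x₀ i ∧ x₀ i ≤ 1) →
        ∃ x : Fin n → ℝ, IsRounding L x₀ x ∧
          ∀ j, |∑ i ∈ S j, (x i - x₀ i)| ≤ C * Real.sqrt t) :=
  ⟨part1, part2, part3, part4⟩

end Pool.Agent.Results.MP_e8ee11_co.LaminarRounding
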