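import Pool.Agent.R959.LD3.Final3
import Pool.Agent.J4.H92.BF.Frac
import Pool.Agent.J4.H92.BF.Transfer
import Pool.Agent.J4.H92.BF.Equal
import Pool.Agent.J4.H92.BF.Assign

/-!
# Beck–Fiala with any number of colours and arbitrary proportions

Let `S_1, …, S_m` be subsets of `[n]` such that every element is in at most `t` of them. All
constants below are independent of the number `k` of the colours.

(1) Let `0 < κ < 1/9`, and let `p_i` be a probability distribution on `[k]` for every element `i`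
(degrees have to be at most `t` only for the elements whose `p_i` is not concentrated in a point).
There is a colouring `c : [n] → [k]`, `c(i)` in the support of `p_i`, such that for all sets `S_j`
and all colours `a`
`|#{i ∈ S_j : c(i) = a} - ∑_{i ∈ S_j} p_i(a)| ≤ C (√t + σ_{j,a} + f_{j,a} exp (-t ^ κ))`,
where `σ_{j,a}²` is the variance of the number of elements of `S_j` with the colour `a` if the
colours are random and independent with the distributions `p_i`, and `f_{j,a}` is the number of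
elements `i ∈ S_j` with `0 < p_i(a) < 1`.

(2) Equal proportions: for every laminar family `L` (any two members disjoint or nested, degrees
not bounded) there is a colouring `c : [n] → [k]` such that every member `T` of `L` contains
`⌊|T|/k⌋` or `⌈|T|/k⌉` elements of every colour, and every set `S_j` contains
`|S_j| / k ± C (√t + √(|S_j|/k) + |S_j| exp (-t ^ κ))` elements of every colour. So the sets of size
at most `k t` and at most `exp (t ^ κ)` contain `|S_j| / k + O(√t)` elements of every colour.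

(3) The analogue of (2) for real matrices with entries of absolute value at most one, columns of
`ℓ¹` norm at most `t` and rows and columns with at most `K` nonzero entries.

(4) The Beck–Fiala conjecture (for two colours) holds if and only if there is a constant `C` such
that for all `k` and all distributions `p_i` there is a colouring as in (1) with all errors at most
`C √t`.
-/

set_option autoImplicit false

open Finset

namespace Pool.Agent.Results.MP_e8ee11_co.Multicolour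

/-- Every element is in at most `t` of the sets `S_1, …, S_m`. -/
def DegreeLE {m n : ℕ} (S : Fin m → Finset (Fin n)) (t : ℕ) : Prop :=
  ∀ i, (univ.filter (fun j => i ∈ S j)).card ≤ t

/-- `L` is a laminar family: any two members are disjoint, or one of them contains the other. -/
def Laminar {n : ℕ} (L : Set (Finset (Fin n))) : Prop :=
  ∀ S ∈ L, ∀ T ∈ L, S ⊆ T ∨ T ⊆ S ∨ Disjoint S T

/-- `p_i` is a probability distribution on the `k` colours for every element `i`. -/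
def IsProb {n k : ℕ} (p : Fin n → Fin k → ℝ) : Prop :=
  (∀ i a, 0 ≤ p i a) ∧ ∀ i, ∑ a, p i a = 1

/-- The number of elements of `S` with the colour `a`. -/
def num {n k : ℕ} (c : Fin n → Fin k) (S : Finset (Fin n)) (a : Fin k) : ℕ :=
  (S.filter (fun i => c i = a)).card

theorem prob_le_one {n k : ℕ} {p : Fin n → Fin k → ℝ} (hp : IsProb p) (i : Fin n) (a : Fin k) :
    p i a ≤ 1 := by
  rw [← hp.2 i]
  exact Finset.single_le_sum (f := fun a => p i a) (fun a _ => hp.1 i a) (Finset.mem_univ a)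

theorem part1 (κ : ℝ) (hκ : 0 < κ) (hκ' : κ < 1 / 9) :
    ∃ C : ℝ, 0 < C ∧ ∀ (n m t k : ℕ) (S : Fin m → Finset (Fin n)) (p : Fin n → Fin k → ℝ), 1 ≤ t →
      (∀ i, (∃ a, 0 < p i a ∧ p i a < 1) → (univ.filter (fun j => i ∈ S j)).card ≤ t) →
      IsProb p →
      ∃ c : Fin n → Fin k, (∀ i, p i (c i) ≠ 0) ∧ ∀ j a,
        |(num c (S j) a : ℝ) - ∑ i ∈ S j, p i a| ≤
          C * (Real.sqrt t + Real.sqrt (∑ i ∈ S j, p i a * (1 - p i a)) +
            {i | i ∈ S j ∧ 0 < p i a ∧ p i a < 1}.ncard * Real.exp (-((t : ℝ) ^ κ))) := by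
  classical
  obtain ⟨C, hC, hc⟩ := Pool.Agent.J4.H92.BF.round_frac κ hκ
    (Pool.Agent.R959.LD3.main3 1 κ zero_le_one hκ (by linarith))
  refine ⟨C, hC, fun n m t k S p ht hdeg hp => ?_⟩
  obtain ⟨x, h1, h2, _, h4, h5⟩ := hc (n * k) (m * k) t (Pool.Agent.J4.H92.BF.prodSets k S)
    (Pool.Agent.J4.H92.BF.rowSets n k) (Pool.Agent.J4.H92.BF.x0 p) ht (by
      intro v hv hv'
      refine le_trans ?_ ((Pool.Agent.J4.H92.BF.prodSets_degree S v).trans
        (hdeg (finProdFinEquiv.symm v).1 ⟨(finProdFinEquiv.symm v).2, hv, hv'⟩))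
      apply le_of_eq
      congr) Pool.Agent.J4.H92.BF.rowSets_laminar
    (fun v => ⟨hp.1 _ _, prob_le_one hp _ _⟩)
  obtain ⟨c, hc1, hc2⟩ := Pool.Agent.J4.H92.BF.assign S p hp.2 (fun v => (x v : ℝ)) (fun v => by
    show (x v : ℝ) = 0 ∨ (x v : ℝ) = 1
    rcases h1 v with h | h <;> rw [h] <;> simp) (fun v hv => by
    show (x v : ℝ) = 0
    rw [h2 v hv]; simp) h4
  refine ⟨c, fun i hi => hc1 i (c i) hi rfl, fun j a => ?_⟩
  have h6 := h5 (finProdFinEquiv (j, a))
  have e1 := hc2 j a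
  rw [e1, Pool.Agent.J4.H92.BF.sum_prodSets] at h6
  simp only [Pool.Agent.J4.H92.BF.x0_mk] at h6
  have e : {i | i ∈ S j ∧ 0 < p i a ∧ p i a < 1}.ncard =
      ((Pool.Agent.J4.H92.BF.prodSets k S (finProdFinEquiv (j, a))).filter (fun v =>
        0 < Pool.Agent.J4.H92.BF.x0 p v ∧ Pool.Agent.J4.H92.BF.x0 p v < 1)).card := by
    have e2 : (Pool.Agent.J4.H92.BF.prodSets k S (finProdFinEquiv (j, a))).filter (fun v =>
        0 < Pool.Agent.J4.H92.BF.x0 p v ∧ Pool.Agent.J4.H92.BF.x0 p v < 1) =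
        ((S j).filter (fun i => 0 < p i a ∧ p i a < 1)).map
          (Pool.Agent.J4.H92.BF.embL k a) := by
      ext v
      rw [Finset.mem_filter, Pool.Agent.J4.H92.BF.mem_prodSets, Finset.mem_map]
      simp only [Equiv.symm_apply_apply]
      constructor
      · rintro ⟨⟨g1, g2⟩, g3⟩
        refine ⟨(finProdFinEquiv.symm v).1, ?_, ?_⟩
        · rw [Finset.mem_filter]
          refine ⟨g1, ?_⟩
          rw [← g2]
          exact g3
        · rw [Pool.Agent.J4.H92.BF.embL_apply, ← g2]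
          exact finProdFinEquiv.apply_symm_apply v
      · rintro ⟨i, hi, rfl⟩
        rw [Finset.mem_filter] at hi
        rw [Pool.Agent.J4.H92.BF.embL_apply, Equiv.symm_apply_apply,
          Pool.Agent.J4.H92.BF.x0_mk]
        exact ⟨⟨hi.1, rfl⟩, hi.2⟩
    rw [e2, Finset.card_map, ← Set.ncard_coe_finset]
    congr 1
    ext i
    simp
  rw [e]
  unfold num
  convert h6

theorem part2 (κ : ℝ) (hκ : 0 < κ) (hκ' : κ < 1 / 9) :
    ∃ C : ℝ, 0 < C ∧ ∀ (n m t k : ℕ) (S : Fin m → Finset (Fin n)) (L : Set (Finset (Fin n))),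
      1 ≤ t → 1 ≤ k → DegreeLE S t → Laminar L →
      ∃ c : Fin n → Fin k, (∀ T ∈ L, ∀ a, |(num c T a : ℝ) - T.card / k| < 1) ∧
        ∀ j a, |(num c (S j) a : ℝ) - (S j).card / k| ≤
          C * (Real.sqrt t + Real.sqrt ((S j).card / k) +
            (S j).card * Real.exp (-((t : ℝ) ^ κ))) := by
  obtain ⟨C, hC, hc⟩ := Pool.Agent.J4.H92.BF.equal_sets κ hκ
    (Pool.Agent.R959.LD3.main3 1 κ zero_le_one hκ (by linarith))
  exact ⟨C, hC, fun n m t k S L ht hk hdeg hL => hc n m t k S L ht hk hdeg hL⟩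

theorem part3 (κ : ℝ) (hκ : 0 < κ) (hκ' : κ < 1 / 9) :
    ∃ C : ℝ, 0 < C ∧ ∀ (n m K k : ℕ) (t : ℝ) (A : Fin m → Fin n → ℝ) (L : Set (Finset (Fin n))),
      1 ≤ t → 1 ≤ k → (∀ i j, |A i j| ≤ 1) → (∀ j, ∑ i, |A i j| ≤ t) →
      (∀ i, {j | A i j ≠ 0}.ncard ≤ K) → (∀ j, {i | A i j ≠ 0}.ncard ≤ K) → Laminar L →
      ∃ c : Fin n → Fin k, (∀ T ∈ L, ∀ a, |(num c T a : ℝ) - T.card / k| < 1) ∧
        ∀ i a, |∑ j ∈ univ.filter (fun j => c j = a), A i j - 1 / k * ∑ j, A i j| ≤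
          C * Real.sqrt (t + (Real.log K) ^ (1 / κ) + (∑ j, |A i j|) / k) := by
  obtain ⟨C, hC, hc⟩ := Pool.Agent.J4.H92.BF.equal_matrix κ hκ
    (Pool.Agent.R959.LD3.main3 1 κ zero_le_one hκ (by linarith))
  exact ⟨C, hC, fun n m K k t A L ht hk h1 h2 h3 h4 hL => hc n (Fin m) K t A L k hL ht h1 h2
    (fun i => by rw [Pool.Agent.R959.LD3.supp_card]; exact h3 i)
    (fun j => by rw [Pool.Agent.R959.LD3.supp_card]; exact h4 j) hk⟩

theorem part4 :
    (∃ C : ℝ, 0 < C ∧ ∀ (n m t : ℕ) (S : Fin m → Finset (Fin n)), DegreeLE S t →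
      ∃ χ : Fin n → ℤ, (∀ i, χ i = 1 ∨ χ i = -1) ∧
        ∀ j, ((|∑ i ∈ S j, χ i| : ℤ) : ℝ) ≤ C * Real.sqrt t) ↔
    ∃ C : ℝ, 0 < C ∧ ∀ (n m t k : ℕ) (S : Fin m → Finset (Fin n)) (p : Fin n → Fin k → ℝ),
      DegreeLE S t → IsProb p →
      ∃ c : Fin n → Fin k, (∀ i, p i (c i) ≠ 0) ∧
        ∀ j a, |(num c (S j) a : ℝ) - ∑ i ∈ S j, p i a| ≤ C * Real.sqrt t := by
  classical
  constructor
  · rintro ⟨c₀, hc₀, h⟩
    refine ⟨4 * c₀, by positivity, fun n m t k S p hdeg hp => ?_⟩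
    obtain ⟨x, g1, g2, g3⟩ := Pool.Agent.J4.H92.BF.transfer (n * k) (m * k) t
      (c₀ * (2 * Real.sqrt t)) (by
      intro k' _ S' hS'
      obtain ⟨χ, hχ, hχ2⟩ := h k' (m * k + m * k) (2 * t) S' hS'
      refine ⟨χ, hχ, fun j => ?_⟩
      have h1 := hχ2 j
      push_cast at h1
      refine h1.trans (mul_le_mul_of_nonneg_left ?_ hc₀.le)
      rw [Real.sqrt_mul (by norm_num)]
      have : Real.sqrt 2 ≤ 2 := by
        rw [Real.sqrt_le_iff]; norm_num
      exact mul_le_mul_of_nonneg_right this (Real.sqrt_nonneg _))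
      (Pool.Agent.J4.H92.BF.prodSets k S)
      (Pool.Agent.J4.H92.BF.rowSets n k ∪ {T | ∃ i, T = {i}}) (Pool.Agent.J4.H92.BF.x0 p)
      (fun v => (Pool.Agent.J4.H92.BF.prodSets_degree S v).trans (hdeg _))
      (Pool.Agent.J4.H92.BF.laminar_insert_singletons Pool.Agent.J4.H92.BF.rowSets_laminar)
      (fun v => ⟨hp.1 _ _, prob_le_one hp _ _⟩)
    obtain ⟨c, hc1, hc2⟩ := Pool.Agent.J4.H92.BF.assign S p hp.2 (fun v => (x v : ℝ)) (fun v => by
      show (x v : ℝ) = 0 ∨ (x v : ℝ) = 1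
      rcases g1 v with h | h <;> rw [h] <;> simp) (fun v hv => by
      show (x v : ℝ) = 0
      have h5 := g2 {v} (Or.inr ⟨v, rfl⟩)
      rw [Finset.sum_singleton, hv] at h5
      rcases g1 v with h | h
      · rw [h]; simp
      · rw [h] at h5; norm_num at h5) (fun T hT => g2 T (Or.inl hT))
    refine ⟨c, fun i hi => hc1 i (c i) hi rfl, fun j a => ?_⟩
    have h6 := g3 (finProdFinEquiv (j, a))
    have e1 := hc2 j a
    rw [e1] at h6
    unfold num
    refine h6.trans (le_of_eq (by ring))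
  · rintro ⟨c₀, hc₀, h⟩
    refine ⟨2 * c₀, by positivity, fun n m t S hdeg => ?_⟩
    obtain ⟨c, _, hc⟩ := h n m t 2 S (fun _ _ => 1 / 2) hdeg
      ⟨fun _ _ => by norm_num, fun _ => by simp⟩
    refine ⟨fun i => if c i = 0 then 1 else -1, fun i => ?_, fun j => ?_⟩
    · show (if c i = 0 then (1:ℤ) else -1) = 1 ∨ (if c i = 0 then (1:ℤ) else -1) = -1
      split_ifs
      · exact Or.inl rfl
      · exact Or.inr rfl
    · have h1 := hc j 0
      have e : ((∑ i ∈ S j, (if c i = 0 then (1:ℤ) else -1) : ℤ) : ℝ) =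
          2 * ((num c (S j) 0 : ℝ) - ∑ i ∈ S j, 1 / 2) := by
        push_cast
        have e2 : ∀ i, (if c i = 0 then (1:ℝ) else -1) = 2 * (if c i = 0 then 1 else 0) - 1 := by
          intro i
          split_ifs <;> norm_num
        simp only [e2]
        rw [Finset.sum_sub_distrib, ← Finset.mul_sum, ← Finset.sum_filter, Finset.sum_const,
          Finset.sum_const, Finset.sum_const, nsmul_eq_mul, nsmul_eq_mul, nsmul_eq_mul]
        unfold num
        ring
      rw [Int.cast_abs, e, abs_mul, abs_two]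
      linarith

/-- **Beck–Fiala with many colours**: see the header of the file. -/
theorem result :
    (∀ κ : ℝ, 0 < κ → κ < 1 / 9 →
      ∃ C : ℝ, 0 < C ∧ ∀ (n m t k : ℕ) (S : Fin m → Finset (Fin n)) (p : Fin n → Fin k → ℝ),
        1 ≤ t →
        (∀ i, (∃ a, 0 < p i a ∧ p i a < 1) → (univ.filter (fun j => i ∈ S j)).card ≤ t) →
        IsProb p →
        ∃ c : Fin n → Fin k, (∀ i, p i (c i) ≠ 0) ∧ ∀ j a,
          |(num c (S j) a : ℝ) - ∑ i ∈ S j, p i a| ≤
            C * (Real.sqrt t + Real.sqrt (∑ i ∈ S j, p i a * (1 - p i a)) +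
              {i | i ∈ S j ∧ 0 < p i a ∧ p i a < 1}.ncard * Real.exp (-((t : ℝ) ^ κ)))) ∧
    (∀ κ : ℝ, 0 < κ → κ < 1 / 9 →
      ∃ C : ℝ, 0 < C ∧ ∀ (n m t k : ℕ) (S : Fin m → Finset (Fin n)) (L : Set (Finset (Fin n))),
        1 ≤ t → 1 ≤ k → DegreeLE S t → Laminar L →
        ∃ c : Fin n → Fin k, (∀ T ∈ L, ∀ a, |(num c T a : ℝ) - T.card / k| < 1) ∧
          ∀ j a, |(num c (S j) a : ℝ) - (S j).card / k| ≤
            C * (Real.sqrt t + Real.sqrt ((S j).card / k) +
              (S j).card * Real.exp (-((t : ℝ) ^ κ)))) ∧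
    (∀ κ : ℝ, 0 < κ → κ < 1 / 9 →
      ∃ C : ℝ, 0 < C ∧ ∀ (n m K k : ℕ) (t : ℝ) (A : Fin m → Fin n → ℝ)
        (L : Set (Finset (Fin n))),
        1 ≤ t → 1 ≤ k → (∀ i j, |A i j| ≤ 1) → (∀ j, ∑ i, |A i j| ≤ t) →
        (∀ i, {j | A i j ≠ 0}.ncard ≤ K) → (∀ j, {i | A i j ≠ 0}.ncard ≤ K) → Laminar L →
        ∃ c : Fin n → Fin k, (∀ T ∈ L, ∀ a, |(num c T a : ℝ) - T.card / k| < 1) ∧
          ∀ i a, |∑ j ∈ univ.filter (fun j => c j = a), A i j - 1 / k * ∑ j, A i j| ≤
            C * Real.sqrt (t + (Real.log K) ^ (1 / κ) + (∑ j, |A i j|) / k)) ∧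
    ((∃ C : ℝ, 0 < C ∧ ∀ (n m t : ℕ) (S : Fin m → Finset (Fin n)), DegreeLE S t →
        ∃ χ : Fin n → ℤ, (∀ i, χ i = 1 ∨ χ i = -1) ∧
          ∀ j, ((|∑ i ∈ S j, χ i| : ℤ) : ℝ) ≤ C * Real.sqrt t) ↔
      ∃ C : ℝ, 0 < C ∧ ∀ (n m t k : ℕ) (S : Fin m → Finset (Fin n)) (p : Fin n → Fin k → ℝ),
        DegreeLE S t → IsProb p →
        ∃ c : Fin n → Fin k, (∀ i, p i (c i) ≠ 0) ∧
          ∀ j a, |(num c (S j) a : ℝ) - ∑ i ∈ S j, p i a| ≤ C * Real.sqrt t) :=
  ⟨part1, part2, part3, part4⟩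

end Pool.Agent.Results.MP_e8ee11_co.Multicolour
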