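import Pool.Agent.J4.H8.BF.Chain2
import Pool.Agent.J4.H8.BF.Cor2

set_option autoImplicit false

/-!
# Systems of degree `t`: sets with fewer than `t ^ (2 - ε)` and with fewer than `t ^ (5 - ε)` elements

Let `c ≥ 0`, `κ > 0`, `9 κ + c < 1`. For every real matrix with entries in `[-1, 1]` and at most `t`
nonzero entries in every column (any number of rows and columns) and for every `u ≥ t` there are signs
for the columns such that every row with `s` nonzero entries has signed sum at most
`C ((√u + √(s t) u ^ (-(1 + c)/2)) √(1 + log (1 + min (s / u) (u ^ (1 + c) / t))) + s exp (-u ^ κ))`.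

Consequences for the set systems of maximum degree `t`, uniformly in the numbers of points and of sets:
* (`u = t`, `c` close to one) all the sets with at most `t ^ (2 - ε)` elements have discrepancy at most
  `C_ε √(t log (2 + |S| / t))` at once;
* (`u = max t ((t s) ^ (1 / (2 + c)))`, `c` close to one) if all sets have at most `s` elements, all
  discrepancies are at most `C_ε √(u log (2 + s / u))`, `u = max t ((t s) ^ (1/3 + ε))`. For
  `s ≤ t ^ (5 - 6 a)`, `0 < a ≤ 1/2`, this is `t ^ (1 - a + o(1))`.

Proof. The colouring is built in `O(log u)` phases, as in `Pool.Agent.R959.LD3`: in each phase the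
new fractional colouring is the minimiser over a cube of `|z - g| ^ 2 / 2` plus barrier potentials
of the row sums, with `g` Gaussian, and the local lemma is applied to its approximation by local
functions. New points. (1) Rows of large mass need not be scaled to norm at most one: with a
constant barrier the strong convexity of the potential alone makes the row sum a Lipschitz function
of `g`, whatever the length of the row, so that a phase costs such a row only a constant; the
number of such phases is `k = O(log (s / u))`. (2) The steps are symmetric, so the discrepancy of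
a row makes a random walk. A row at distance `r` from the wall `± C √k` is given the stiffness
`k / r ^ 2`, which keeps it inside; the mean stiffness seen by a vertex grows by a factor
`1 + O(1 / k)` per phase only, and it concentrates, so the local lemma controls it for all the
vertices together with the discrepancies. (3) After division by `√u` only the operator norm, at most
`t s / u`, of the matrix counts for the locality, and it may be almost `u ^ 2`.
-/

open Finset

namespace Pool.Agent.Results.MP_e8ee11_co.SetsBelowTSquared

/-- the bound, at the scale `u`, for the signed sum of a row with `s` nonzero entries, if the columns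
have at most `t` nonzero entries -/
noncomputable def bound (c κ t u s : ℝ) : ℝ :=
  (Real.sqrt u + Real.sqrt (s * t) * u ^ (-((1 + c) / 2))) *
      Real.sqrt (1 + Real.log (1 + min (s / u) (u ^ (1 + c) / t))) + s * Real.exp (-(u ^ κ))

theorem result (c κ : ℝ) (hc : 0 ≤ c) (hκ : 0 < κ) (h : 9 * κ + c < 1) :
    ∃ C : ℝ, 0 < C ∧ ∀ (n m t : ℕ) (u : ℝ) (A : Fin m → Fin n → ℝ), 1 ≤ t → (t : ℝ) ≤ u →
      (∀ j i, |A j i| ≤ 1) → (∀ i, (univ.filter (fun j => A j i ≠ 0)).card ≤ t) →
      ∃ x : Fin n → ℝ, (∀ i, x i = 1 ∨ x i = -1) ∧
        ∀ j, |∑ i, A j i * x i| ≤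
          C * bound c κ t u ((univ.filter (fun i => A j i ≠ 0)).card : ℝ) := by
  obtain ⟨C, hC, h2⟩ := Pool.Agent.J4.H8.BF.cor_scale c κ (1 / 2) hc hκ (by norm_num)
    (by norm_num) (Pool.Agent.J4.H8.BF.main2 (1 + c) κ (by linarith) hκ (by linarith))
  refine ⟨C, hC, fun n m t u A ht htu hA hdeg => ?_⟩
  obtain ⟨x, hx1, hx2⟩ := h2 n m t u A ht htu hA hdeg
  refine ⟨x, hx1, fun j => ?_⟩
  have h3 := hx2 j
  unfold Pool.Agent.J4.H8.BF.bds at h3
  rw [← Real.sqrt_eq_rpow] at h3
  exact h3

end Pool.Agent.Results.MP_e8ee11_co.SetsBelowTSquared
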