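import Pool.Agent.J4.H77.BD.Graph

set_option autoImplicit false

/-!
# The Beck–Fiala bound for arbitrarily large sets of small boundary

Let `0 < κ < 1/9` and let `S_1, …, S_m` be any subsets of an `n`-element set, every element of which is
in at most `t` of them. The starting theorem `LongSets` gives a colouring in which every `S_j` has
discrepancy at most `C (√t + √|S_j| + |S_j| exp (-t ^ κ))`. Here the size `|S_j|` is replaced by the
size of the boundary of `S_j` in a structure on the ground set which can be chosen freely:

1. a partial matching (an involution `φ`): the number of the elements of `S_j` which are unmatched or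
   whose partner is not in `S_j`;
2. a connected graph `G` on the ground set: the number of the edges of `G` with exactly one end in `S_j`;
3. a linear order: the number of the consecutive pairs with exactly one member in `S_j` (at most twice
   the number of the intervals of which `S_j` is the union). In this case all initial segments have
   discrepancy at most one, in addition.

So the Beck–Fiala conjecture holds for all set systems of maximum degree `t` whose sets are unions of
`O(t)` intervals of some linear order (for example Boolean combinations of `O(t)` intervals, or of `O(t)`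
members of a laminar family), or have `O(t)` boundary edges in some connected graph on the ground set,
whatever the number and the sizes of the sets are.

Proof. The elements of a pair of the matching get opposite colours, and only the pairs which are cut by
`S_j` contribute to its discrepancy: they form two sets (according to the sign) of a set system of
maximum degree at most `2 t`. In a connected graph the vertices are ordered by inserting them one by one
right after one of their neighbours; then the consecutive pairs cut by a set `S` are at most twice as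
many as the edges cut by `S`.
-/

open Finset

namespace Pool.Agent.Results.MP_e8ee11_co.SmallBoundary

/-- The bound `C (√t + √b + b exp (- t ^ κ))`. -/
noncomputable def bound (C κ : ℝ) (t b : ℕ) : ℝ :=
  C * (Real.sqrt t + Real.sqrt b + b * Real.exp (-((t : ℝ) ^ κ)))

/-- Every element of the ground set is in at most `t` of the sets. -/
def DegreeLE {n m : ℕ} (S : Fin m → Finset (Fin n)) (t : ℕ) : Prop :=
  ∀ i : Fin n, (univ.filter (fun j : Fin m => i ∈ S j)).card ≤ t

/-- The number of the elements of `S` which are fixed by `φ` or are mapped by `φ` to an element outside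
`S`. -/
def cutPairs {n : ℕ} (φ : Fin n → Fin n) (S : Finset (Fin n)) : ℕ :=
  (S.filter (fun i => φ i ∉ S ∨ φ i = i)).card

/-- The number of the edges of `G` with exactly one end in `S`. -/
noncomputable def edgeBoundary {n : ℕ} (G : SimpleGraph (Fin n)) (S : Finset (Fin n)) : ℕ :=
  {p : Fin n × Fin n | p.1 ∈ S ∧ p.2 ∉ S ∧ G.Adj p.1 p.2}.ncard

/-- The number of the `i` such that exactly one of `i` and `i + 1` is in `S`. -/
noncomputable def changes {n : ℕ} (S : Finset (Fin n)) : ℕ :=
  {i : Fin n | ∃ h : (i : ℕ) + 1 < n, ¬ (i ∈ S ↔ (⟨i + 1, h⟩ : Fin n) ∈ S)}.ncard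

/-- **Beck–Fiala with the boundary of the sets in place of their size**, for a partial matching, a
connected graph, and a linear order on the ground set. -/
theorem result (κ : ℝ) (hκ : 0 < κ) (h9 : κ < 1 / 9) :
    ∃ C : ℝ, 0 < C ∧
      ∀ (n m t : ℕ) (S : Fin m → Finset (Fin n)), 1 ≤ t → DegreeLE S t →
        (∀ φ : Fin n → Fin n, Function.Involutive φ →
          ∃ χ : Fin n → ℤ, (∀ i, χ i = 1 ∨ χ i = -1) ∧
            ∀ j, ((|∑ i ∈ S j, χ i| : ℤ) : ℝ) ≤ bound C κ t (cutPairs φ (S j))) ∧
        (∀ G : SimpleGraph (Fin n), G.Connected →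
          ∃ χ : Fin n → ℤ, (∀ i, χ i = 1 ∨ χ i = -1) ∧
            ∀ j, ((|∑ i ∈ S j, χ i| : ℤ) : ℝ) ≤ bound C κ t (edgeBoundary G (S j))) ∧
        (∃ χ : Fin n → ℤ, (∀ i, χ i = 1 ∨ χ i = -1) ∧
          (∀ j, ((|∑ i ∈ S j, χ i| : ℤ) : ℝ) ≤ bound C κ t (changes (S j))) ∧
          ∀ c : ℕ, |∑ i ∈ univ.filter (fun i : Fin n => (i : ℕ) < c), χ i| ≤ 1) := by
  obtain ⟨C1, hC1, h1⟩ := Pool.Agent.J4.H77.BD.main_pair κ hκ h9
  obtain ⟨C2, hC2, h2⟩ := Pool.Agent.J4.H77.BD.main_graph κ hκ h9
  obtain ⟨C3, hC3, h3⟩ := Pool.Agent.J4.H77.BD.main_order κ hκ h9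
  have mono : ∀ C : ℝ, C ≤ C1 + C2 + C3 → ∀ t b : ℕ,
      C * (Real.sqrt t + Real.sqrt b + b * Real.exp (-((t : ℝ) ^ κ))) ≤
        bound (C1 + C2 + C3) κ t b := by
    intro C hC t b
    exact mul_le_mul_of_nonneg_right hC (by positivity)
  refine ⟨C1 + C2 + C3, by positivity, fun n m t S ht hdeg => ⟨fun φ hφ => ?_, fun G hG => ?_, ?_⟩⟩
  · obtain ⟨χ, a1, -, a3⟩ := h1 n m t S ht hdeg φ hφ
    exact ⟨χ, a1, fun j => (a3 j).trans (mono C1 (by linarith) t _)⟩
  · obtain ⟨χ, a1, a2⟩ := h2 n m t S ht hdeg G hG
    exact ⟨χ, a1, fun j => (a2 j).trans (mono C2 (by linarith) t _)⟩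
  · obtain ⟨χ, a1, a2, a3⟩ := h3 n m t S ht hdeg
    exact ⟨χ, a1, fun j => (a2 j).trans (mono C3 (by linarith) t _), a3⟩

end Pool.Agent.Results.MP_e8ee11_co.SmallBoundary
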